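import Pool.Agent.Helper93.LCH.Basic3

/-!
Row HBD of the chain criterion (MP_b555a2_al): bounds of homogeneous expressions.
-/

namespace LCH25

open LCH

universe u v w

theorem st_HBD : ST_HBD.{u, v, w} := by
  intro K _ G _ T _ X κ hI e
  induction e with
  | mono c g =>
    intro L χ ψ _ _ _ hsupp _ r hr
    refine ⟨|ψ g|, fun i => ?_⟩
    have hg : g ∈ L := hsupp g rfl
    obtain ⟨h1, h2, h3, h4⟩ := i.at'
    have hgs : g ∈ i.s.M := h1 hg
    have hfil := (Fil_tr (K := K) h2 hgs).smul c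
    refine Fil.anti ?_ hfil
    have e1 : i.f g = χ g + i.t * ψ g := h4 g hg
    have e2 : χ g = r := hr
    rw [e1, e2]
    have e3 : -(|i.t| * |ψ g|) ≤ i.t * ψ g := by
      rw [← abs_mul]
      exact neg_abs_le _
    linarith [mul_comm |i.t| |ψ g|]
  | add a b iha ihb =>
    intro L χ ψ hL hχ hψ hsupp hm r hr
    obtain ⟨Ca, ha⟩ := iha L χ ψ hL hχ hψ (fun g hg => hsupp g (Or.inl hg))
      (mle_trans (mle_of_lt (meas_add_left T a b)) hm) r hr.1
    obtain ⟨Cb, hb⟩ := ihb L χ ψ hL hχ hψ (fun g hg => hsupp g (Or.inr hg))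
      (mle_trans (mle_of_lt (meas_add_right T a b)) hm) r hr.2
    refine ⟨max Ca Cb, fun i => ?_⟩
    refine Fil.add (Fil.anti ?_ (ha i)) (Fil.anti ?_ (hb i))
    · have := mul_le_mul_of_nonneg_right (le_max_left Ca Cb) (abs_nonneg i.t)
      linarith
    · have := mul_le_mul_of_nonneg_right (le_max_right Ca Cb) (abs_nonneg i.t)
      linarith
  | mul a b iha ihb =>
    intro L χ ψ hL hχ hψ hsupp hm r hr
    obtain ⟨p, q, hpq, hp, hq⟩ := hr
    obtain ⟨Ca, ha⟩ := iha L χ ψ hL hχ hψ (fun g hg => hsupp g (Or.inl hg))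
      (mle_trans (meas_mul_left T a b) hm) p hp
    obtain ⟨Cb, hb⟩ := ihb L χ ψ hL hχ hψ (fun g hg => hsupp g (Or.inr hg))
      (mle_trans (meas_mul_right T a b) hm) q hq
    refine ⟨Ca + Cb, fun i => ?_⟩
    refine Fil.anti ?_ (Fil.mul (ha i) (hb i))
    have : r - (Ca + Cb) * |i.t| = (p - Ca * |i.t|) + (q - Cb * |i.t|) := by
      rw [← hpq]; ring
    rw [this]
  | inv a _ =>
    intro L χ ψ hL hχ hψ hsupp hm
    have hlt : MSys.lt (a.meas T) κ := lt_of_lt_of_mle (meas_inv T a) hm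
    exact (hI a (fun g hg => hL (hsupp g hg)) hlt).2 L χ ψ hL hχ hψ hsupp

end LCH25
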